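import Pool.Agent.helper60.MW.SpecC

set_option autoImplicit false

/-!
Row UTX of the project MW (Moser's worm problem): explicit uniform thickness for open sets (adapted from the row UTO of
helper98).
-/

namespace Pool.Agent.MW

open MeasureTheory Set Pool.Agent.helper17.Worm

theorem UTX_good {κ η a W : ℝ} {K L : ℕ} (h : Good κ η a K L W) :
    (1 : ℝ) / 2 ^ L ≤ W := by
  obtain ⟨hκ, hκ8, hη, hη1, ha, haη, hL, hK, _, hW⟩ := h
  have h1 : (1 : ℝ) / 2 ^ L ≤ a := by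
    have e : (8 : ℝ) / 2 ^ L = 8 * (1 / 2 ^ L) := by ring
    have h0 : 8 * (1 / 2 ^ L : ℝ) ≤ κ * a := by rw [← e]; exact hL
    have h2 : κ * a ≤ 1 * a := mul_le_mul_of_nonneg_right (by linarith) ha.le
    have h3 : (0 : ℝ) ≤ 1 / 2 ^ L := by positivity
    linarith
  have hK1 : (1 : ℝ) ≤ K := by exact_mod_cast hK
  have h4 : a ≤ 24 * a / η := by
    rw [le_div_iff₀ hη]
    nlinarith
  have h5 : 24 * a / η ≤ 8 * K * (24 * a / η) := by
    have h6 : (0 : ℝ) ≤ 24 * a / η := by positivity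
    nlinarith
  linarith

theorem UTX_ball {D : ℤ → ℤ → ℝ} {L K : ℕ} {κ W δ : ℝ} {z : ℂ} (hδ : δ ≤ W)
    (hz : z ∈ HH D L κ W K) : Metric.closedBall z δ ⊆ HH D L κ (2 * W) K := by
  intro w hw
  obtain ⟨S, hS, hs⟩ := hz
  refine ⟨S, hS, fun s hsS => ⟨(hs s hsS).1, ?_⟩⟩
  have h1 := (hs s hsS).2
  rw [mem_closedBall_iff_norm] at hw
  have hre : |w.re - z.re| ≤ δ := by
    have h2 := Complex.abs_re_le_norm (w - z)
    rw [Complex.sub_re] at h2
    linarith
  have him : |w.im - z.im| ≤ δ := by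
    have h2 := Complex.abs_im_le_norm (w - z)
    rw [Complex.sub_im] at h2
    linarith
  unfold nbh at h1 ⊢
  rw [Complex.mem_reProdIm] at h1 ⊢
  obtain ⟨⟨a1, a2⟩, b1, b2⟩ := h1
  rw [abs_le] at hre him
  refine ⟨⟨?_, ?_⟩, ?_, ?_⟩
  · linarith [hre.1]
  · linarith [hre.2]
  · linarith [him.1]
  · linarith [him.2]

theorem UTX_mv (g : ℝ × ℂ) (z w : ℂ) :
    mv (g.1, g.2 - Complex.exp (Complex.I * g.1) * w) z = mv g (z - w) := by
  unfold mv
  ring

theorem UTX_num1 {e w : ℝ} (he : 0 < e) (he1 : e < 1) (hw : 0 ≤ w) (hwe : w ≤ e / 128) :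
    ((1 + 2 * (2 * w)) ^ 2 - (1 - 4 * (e / 128))) / (1 - 4 * (e / 128)) ≤ e / 2 := by
  rw [div_le_iff₀ (by linarith)]
  have h1 : (1 + 2 * (2 * w)) ^ 2 ≤ (1 + 4 * (e / 128)) ^ 2 := by
    apply pow_le_pow_left₀ (by linarith)
    linarith
  nlinarith

theorem UTX_num2 {w c : ℝ} (hw : 0 ≤ w) (hc : 0 ≤ c) :
    (1 + 2 * (2 * w)) ^ 2 / c ≤ 4 * ((1 + 2 * w) ^ 2 / c) := by
  have h1 : (1 + 2 * (2 * w)) ^ 2 ≤ 4 * (1 + 2 * w) ^ 2 := by nlinarith
  calc (1 + 2 * (2 * w)) ^ 2 / c ≤ (4 * (1 + 2 * w) ^ 2) / c := div_le_div_of_nonneg_right h1 hc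
    _ = 4 * ((1 + 2 * w) ^ 2 / c) := by ring

theorem UTX (hSCX : SCX_stmt) (hTOT : TOT_stmt) (hDTR : DTR_stmt) (hDMS : DMS_stmt)
    (hHCL : HCL_stmt) (hUUX : UUX_stmt) (hHAR : HAR_stmt) (hEXT : EXT_stmt) (hPLC : PLC_stmt) :
    UTX_stmt := by
  intro k hk X hXo hXc hX1
  have hε7 : (1 : ℝ) / 2 ^ (k + 7) = (1 / 2 ^ k) / 128 := by
    rw [pow_add, ← div_div]
    norm_num
  have hε1' : (1 : ℝ) / 2 ^ (k + 1) = (1 / 2 ^ k) / 2 := by
    rw [pow_add, ← div_div]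
    norm_num
  have hε0 : (0 : ℝ) < 1 / 2 ^ k := by positivity
  have hε1 : (1 : ℝ) / 2 ^ k < 1 := by
    rw [div_lt_one (by positivity)]
    exact one_lt_pow₀ (by norm_num) (by omega)
  have hXm : MeasurableSet X := hXo.measurableSet
  have hT : Tree (den X) := hDTR X hXm
  have hM : mass (den X) 0 = volume X := hDMS X hXm 0
  obtain ⟨E, hEm, hE01, hEva⟩ := hTOT Unit (fun _ => den X) (fun _ => hT)
    (by rw [tsum_fintype]; simp only [Finset.univ_unique, Finset.sum_const, Finset.card_singleton,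
          one_smul]; rw [hM]; exact hX1)
  have hva : ∀ L r, va (den X) L r ≤ ENNReal.ofReal (E (L + r) - E L) := by
    intro L r
    have h1 := hEva L r
    rw [tsum_fintype] at h1
    simpa only [Finset.univ_unique, Finset.sum_const, Finset.card_singleton, one_smul] using h1
  obtain ⟨L, r, K, a, W, hLr, hG, hW0, hWL, hEn⟩ := hSCX k E hEm hE01
  rw [hε7, hε1'] at hG
  rw [hε7] at hWL hEn
  generalize LL k = Lmax at hLr ⊢
  generalize (1 : ℝ) / 2 ^ k = ε at hε0 hε1 hG hWL hEn ⊢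
  have hκ8 : ε / 128 ≤ 1 / 8 := by linarith
  have hκ0 : 0 < ε / 128 := by linarith
  have hK1 : 1 ≤ K := hG.2.2.2.2.2.2.2.1
  have hδ : (1 : ℝ) / 2 ^ Lmax ≤ W := by
    refine le_trans ?_ (UTX_good hG)
    apply one_div_le_one_div_of_le (by positivity)
    exact pow_le_pow_right₀ (by norm_num) hLr
  have hWW : W ≤ ε / 128 := by
    refine le_trans ?_ hWL
    have h2 : (1 : ℝ) ≤ 2 ^ L := one_le_pow₀ (by norm_num)
    nlinarith
  refine ⟨HH (den X (L + r)) (L + r) (ε / 128) (2 * W) K, hHCL _ _ _ _ _, ?_, ?_⟩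
  · have hsub : HH (den X (L + r)) (L + r) (ε / 128) (2 * W) K \ X ⊆
        (UU (den X L) L (ε / 128) (2 * W) \ X) ∪
          (HH (den X (L + r)) (L + r) (ε / 128) (2 * W) K \ UU (den X L) L (ε / 128) (2 * W)) := by
      intro z hz
      by_cases hU : z ∈ UU (den X L) L (ε / 128) (2 * W)
      · exact Or.inl ⟨hU, hz.2⟩
      · exact Or.inr ⟨hz.1, hU⟩
    have h1 : volume (UU (den X L) L (ε / 128) (2 * W) \ X) ≤ ENNReal.ofReal (ε / 2) := by
      refine le_trans (hUUX X hXm L (ε / 128) (2 * W) hκ0 hκ8 (by linarith)) ?_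
      refine le_trans (mul_le_mul_right hX1 _) ?_
      rw [mul_one]
      apply ENNReal.ofReal_le_ofReal
      have h3 : 0 ≤ W * 2 ^ L := by positivity
      have h4 := UTX_num1 hε0 hε1 h3 hWL
      have e : 2 * (2 * W) * 2 ^ L = 2 * (2 * (W * 2 ^ L)) := by ring
      rw [e]
      exact h4
    have h2 : volume (HH (den X (L + r)) (L + r) (ε / 128) (2 * W) K \
        UU (den X L) L (ε / 128) (2 * W)) ≤ ENNReal.ofReal (4 * (ε / 128)) := by
      refine le_trans (hHAR (den X) hT L r K (ε / 128) (2 * W) hκ0 hκ8 (by linarith) hK1) ?_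
      refine le_trans (mul_le_mul_right (hva L r) _) ?_
      rw [← ENNReal.ofReal_mul (by positivity)]
      apply ENNReal.ofReal_le_ofReal
      have h3 : 0 ≤ W * 2 ^ (L + r) := by positivity
      have h4 := UTX_num2 (c := 4 * (ε / 128) ^ 2 * K) h3 (by positivity)
      have e : 2 * (2 * W) * 2 ^ (L + r) = 2 * (2 * (W * 2 ^ (L + r))) := by ring
      have e2 : 2 * W * 2 ^ (L + r) = 2 * (W * 2 ^ (L + r)) := by ring
      rw [e]
      rw [e2] at hEn
      have h5 : 0 ≤ E (L + r) - E L := sub_nonneg.2 (hEm (Nat.le_add_right L r))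
      calc _ ≤ 4 * ((1 + 2 * (W * 2 ^ (L + r))) ^ 2 / (4 * (ε / 128) ^ 2 * K)) *
            (E (L + r) - E L) := mul_le_mul_of_nonneg_right h4 h5
        _ = 4 * ((1 + 2 * (W * 2 ^ (L + r))) ^ 2 / (4 * (ε / 128) ^ 2 * K) *
            (E (L + r) - E L)) := by ring
        _ ≤ 4 * (ε / 128) := by linarith
    calc volume (HH (den X (L + r)) (L + r) (ε / 128) (2 * W) K \ X) ≤ _ := measure_mono hsub
      _ ≤ _ := measure_union_le _ _
      _ ≤ ENNReal.ofReal (ε / 2) + ENNReal.ofReal (4 * (ε / 128)) := add_le_add h1 h2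
      _ = ENNReal.ofReal (ε / 2 + 4 * (ε / 128)) := by
          rw [ENNReal.ofReal_add (by linarith) (by linarith)]
      _ ≤ ENNReal.ofReal ε := ENNReal.ofReal_le_ofReal (by linarith)
  · intro f hf
    obtain ⟨F, hF1, hF0, hFf, hFR⟩ := hEXT (1 - ε) f (by linarith) (by linarith) hf
    obtain ⟨g, -, -, hg⟩ := hPLC X hXo hXc hX1 F ((1 + (1 - ε)) / 2) ((1 - (1 - ε)) / 4) hF1 hF0
      (by linarith) (by linarith) hFR {0} (fun _ => ε / 128) (fun _ => ε / 2) (fun _ => a)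
      (fun _ => W) (fun _ => K) (fun _ => L + r) (fun _ _ => ⟨hG, by linarith⟩)
      (by rw [Finset.sum_singleton]; linarith)
    refine ⟨(g.1, g.2 - Complex.exp (Complex.I * g.1) * f 0), ?_⟩
    intro t ht
    rw [UTX_mv]
    exact UTX_ball hδ (hg _ (hFf t ht) 0 (Finset.mem_singleton_self 0))

end Pool.Agent.MW
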