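import Pool.Agent.helper60.MW.SpecB

set_option autoImplicit false

/-!
Row mw:MS1: finite part of the mass inequality
-/

namespace Pool.Agent.MW

open MeasureTheory Set Pool.Agent.helper17.Worm

theorem MS1_sum (X : Set ℂ) (hX : MeasurableSet X) (hfin : volume X ≠ ⊤) (T : Finset (ℤ × ℤ)) :
    ∑ s ∈ T, den X 0 s.1 s.2 ≤ volume.real X := by
  have hd : PairwiseDisjoint (↑T : Set (ℤ × ℤ)) (fun s : ℤ × ℤ => X ∩ lsq 0 s.1 s.2) := by
    intro s _ t _ hst
    refine Set.disjoint_left.2 ?_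
    rintro z ⟨_, hz⟩ ⟨_, hz'⟩
    apply hst
    simp only [lsq, mem_rc, pow_zero, div_one] at hz hz'
    have h1 : ⌊z.re⌋ = s.1 := Int.floor_eq_iff.2 hz.1
    have h2 : ⌊z.re⌋ = t.1 := Int.floor_eq_iff.2 hz'.1
    have h3 : ⌊z.im⌋ = s.2 := Int.floor_eq_iff.2 hz.2
    have h4 : ⌊z.im⌋ = t.2 := Int.floor_eq_iff.2 hz'.2
    exact Prod.ext (h1.symm.trans h2) (h3.symm.trans h4)
  have hm : ∀ s ∈ T, MeasurableSet (X ∩ lsq 0 s.1 s.2) := fun s _ =>
    hX.inter (measurableSet_rc _ _ _ _)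
  have hf : ∀ s ∈ T, volume (X ∩ lsq 0 s.1 s.2) ≠ ⊤ := fun s _ =>
    ne_top_of_le_ne_top hfin (measure_mono inter_subset_left)
  have h := measureReal_biUnion_finset hd hm hf
  calc ∑ s ∈ T, den X 0 s.1 s.2 = ∑ s ∈ T, volume.real (X ∩ lsq 0 s.1 s.2) := by
        refine Finset.sum_congr rfl fun s _ => ?_
        simp [den]
    _ = volume.real (⋃ s ∈ T, X ∩ lsq 0 s.1 s.2) := h.symm
    _ ≤ volume.real X := measureReal_mono (iUnion₂_subset fun s _ => inter_subset_left) hfin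

theorem MS1 (hLTD : LTD_stmt) (hSEP : SEP_stmt) : MS1_stmt := by
  classical
  intro X V M hX hV hXV hVM ι c hc F R
  -- separation
  have hsep : ∀ᶠ n in (ul : Filter ℕ), ∀ i ∈ F, ∀ i' ∈ F, i ≠ i' →
      (2 * R : ℤ) < |(c i n).1 - (c i' n).1| ∨ (2 * R : ℤ) < |(c i n).2 - (c i' n).2| := by
    rw [Filter.eventually_all_finset]
    intro i _
    rw [Filter.eventually_all_finset]
    intro i' _
    by_cases h : i = i'
    · exact Filter.Eventually.of_forall fun n h' => absurd h h'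
    · exact (hSEP (c i) (c i') (hc i i' h) (2 * R)).mono fun n hn _ => hn
  -- the limit of the finite sums
  have hlim : Filter.Tendsto (fun n => ∑ i ∈ F, ∑ x ∈ Finset.Ico (-(R : ℤ)) R,
      ∑ y ∈ Finset.Ico (-(R : ℤ)) R, den (X n) 0 (x + 2 ^ 0 * (c i n).1) (y + 2 ^ 0 * (c i n).2))
      (ul : Filter ℕ) (nhds (∑ i ∈ F, ∑ x ∈ Finset.Ico (-(R : ℤ)) R,
        ∑ y ∈ Finset.Ico (-(R : ℤ)) R, Dl X (c i) 0 x y)) := by
    refine tendsto_finsetSum _ fun i _ => tendsto_finsetSum _ fun x _ =>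
      tendsto_finsetSum _ fun y _ => hLTD X hX (c i) 0 x y
  refine le_of_tendsto_of_tendsto hlim hVM ?_
  filter_upwards [hsep] with n hn
  have hfin : volume (X n) ≠ ⊤ := ne_top_of_le_ne_top ENNReal.ofReal_ne_top (hXV n)
  have hle : volume.real (X n) ≤ V n := by
    rw [measureReal_def]
    exact ENNReal.toReal_le_of_le_ofReal (hV n) (hXV n)
  refine le_trans ?_ hle
  set S : Finset (ι × ℤ × ℤ) := F ×ˢ (Finset.Ico (-(R : ℤ)) R ×ˢ Finset.Ico (-(R : ℤ)) R) with hS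
  set φ : ι × ℤ × ℤ → ℤ × ℤ := fun p => (p.2.1 + (c p.1 n).1, p.2.2 + (c p.1 n).2) with hφ
  have hinj : Set.InjOn φ (S : Set (ι × ℤ × ℤ)) := by
    rintro ⟨i, x, y⟩ h1 ⟨i', x', y'⟩ h2 h
    rw [Finset.mem_coe, hS, Finset.mem_product, Finset.mem_product, Finset.mem_Ico,
      Finset.mem_Ico] at h1 h2
    obtain ⟨hi, ⟨hx1, hx2⟩, hy1, hy2⟩ := h1
    obtain ⟨hi', ⟨hx1', hx2'⟩, hy1', hy2'⟩ := h2
    simp only [hφ, Prod.mk.injEq] at h hi hi' hx1 hx2 hy1 hy2 hx1' hx2' hy1' hy2' ⊢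
    obtain ⟨ha, hb⟩ := h
    by_cases hii : i = i'
    · subst hii
      exact ⟨rfl, by omega, by omega⟩
    · exfalso
      rcases hn i hi i' hi' hii with h | h
      · rw [lt_abs] at h
        rcases h with h | h <;> omega
      · rw [lt_abs] at h
        rcases h with h | h <;> omega
  calc ∑ i ∈ F, ∑ x ∈ Finset.Ico (-(R : ℤ)) R, ∑ y ∈ Finset.Ico (-(R : ℤ)) R,
        den (X n) 0 (x + 2 ^ 0 * (c i n).1) (y + 2 ^ 0 * (c i n).2)
      = ∑ p ∈ S, den (X n) 0 (φ p).1 (φ p).2 := by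
        rw [hS, Finset.sum_product]
        refine Finset.sum_congr rfl fun i _ => ?_
        rw [Finset.sum_product]
        refine Finset.sum_congr rfl fun x _ => Finset.sum_congr rfl fun y _ => ?_
        simp [hφ]
    _ = ∑ s ∈ S.image φ, den (X n) 0 s.1 s.2 := (Finset.sum_image (f := fun s : ℤ × ℤ => den (X n) 0 s.1 s.2) hinj).symm
    _ ≤ volume.real (X n) := MS1_sum (X n) (hX n) hfin _

end Pool.Agent.MW
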